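import Mathlib

/-!
# Project IN (helper83): the group-theoretic bricks S6, S9, S12
-/

set_option autoImplicit false

open scoped BigOperators Classical

namespace Pool.Agent.K3h51.IN

/-- the elements of the normal abelian subgroup `A` killed by `n` -/
def tor {G : Type} [Group G] (A : Subgroup G) (hc : ∀ a ∈ A, ∀ b ∈ A, a * b = b * a) (n : ℕ) :
    Subgroup G where
  carrier := {a | a ∈ A ∧ a ^ n = 1}
  one_mem' := ⟨A.one_mem, one_pow n⟩
  mul_mem' := by
    rintro a b ⟨ha, ha'⟩ ⟨hb, hb'⟩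
    refine ⟨A.mul_mem ha hb, ?_⟩
    have : Commute a b := hc a ha b hb
    rw [this.mul_pow, ha', hb', one_mul]
  inv_mem' := by
    rintro a ⟨ha, ha'⟩
    exact ⟨A.inv_mem ha, by rw [inv_pow, ha', inv_one]⟩

theorem mem_tor {G : Type} [Group G] {A : Subgroup G} {hc : ∀ a ∈ A, ∀ b ∈ A, a * b = b * a}
    {n : ℕ} {a : G} : a ∈ tor A hc n ↔ a ∈ A ∧ a ^ n = 1 := Iff.rfl

theorem tor_normal {G : Type} [Group G] {A : Subgroup G} {hc : ∀ a ∈ A, ∀ b ∈ A, a * b = b * a}
    (hA : A.Normal) (n : ℕ) : (tor A hc n).Normal := by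
  constructor
  rintro a ⟨ha, ha'⟩ g
  exact ⟨hA.conj_mem a ha g, by rw [conj_pow, ha', mul_one, mul_inv_cancel]⟩

theorem s12 (p : ℕ) [Fact p.Prime] (G : Type) [Group G] [Finite G] (A : Subgroup G)
    (hA : A.Normal) (hc : ∀ a ∈ A, ∀ b ∈ A, a * b = b * a) (hn : ¬ A ≤ Subgroup.center G) :
    ∃ B : Subgroup G, B.Normal ∧ B ≤ A ∧ ¬ B ≤ Subgroup.center G ∧
      (IsPGroup p B ∨ ¬ p ∣ Nat.card B) := by
  have hp := (Fact.out : p.Prime)
  obtain ⟨k, m, hm, hk⟩ := Nat.exists_eq_pow_mul_and_not_dvd (n := Nat.card A)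
    (Nat.card_pos.ne') p hp.one_lt.ne'
  by_cases h1 : tor A hc (p ^ k) ≤ Subgroup.center G
  · refine ⟨tor A hc m, tor_normal hA m, fun a ha => ha.1, ?_, Or.inr ?_⟩
    · intro h2
      apply hn
      intro a ha
      have hcop : Nat.Coprime (p ^ k) m := Nat.Coprime.pow_left k ((hp.coprime_iff_not_dvd).mpr hm)
      have h3 : a ^ (p ^ k * m) = 1 := by
        have h4 : (⟨a, ha⟩ : A) ^ Nat.card A = 1 := pow_card_eq_one'
        rw [hk] at h4
        exact congrArg Subtype.val h4
      have h5 : a ^ (p ^ k) ∈ Subgroup.center G :=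
        h2 ⟨A.pow_mem ha _, by rw [← pow_mul, h3]⟩
      have h6 : a ^ m ∈ Subgroup.center G :=
        h1 ⟨A.pow_mem ha _, by rw [← pow_mul, mul_comm, h3]⟩
      have h7 := Nat.gcd_eq_gcd_ab (p ^ k) m
      rw [hcop.gcd_eq_one] at h7
      have h8 : a = (a ^ (p ^ k)) ^ (Nat.gcdA (p ^ k) m) * (a ^ m) ^ (Nat.gcdB (p ^ k) m) := by
        rw [← zpow_natCast, ← zpow_natCast, ← zpow_mul, ← zpow_mul, ← zpow_add, ← h7]
        simp
      rw [h8]
      exact Subgroup.mul_mem _ (Subgroup.zpow_mem _ h5 _) (Subgroup.zpow_mem _ h6 _)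
    · intro hdvd
      obtain ⟨x, hx⟩ := exists_prime_orderOf_dvd_card' p hdvd
      have h9 : (x : G) ^ m = 1 := x.2.2
      have h10 : x ^ m = 1 := Subtype.ext h9
      have h11 := orderOf_dvd_of_pow_eq_one h10
      rw [hx] at h11
      exact hm h11
  · refine ⟨tor A hc (p ^ k), tor_normal hA _, fun a ha => ha.1, h1, Or.inl ?_⟩
    intro g
    exact ⟨k, Subtype.ext g.2.2⟩

theorem sup_normal {G : Type} [Group G] {L H : Subgroup G} (hL : L.Normal)
    (h : L ⊔ Subgroup.normalizer (H : Set G) = ⊤) : (L ⊔ H).Normal := by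
  rw [← Subgroup.normalizer_eq_top_iff, eq_top_iff, ← h]
  refine sup_le (le_sup_left.trans Subgroup.le_normalizer) ?_
  rw [sup_comm]
  exact Subgroup.normalizer_le_normalizer_sup_normal

theorem pow_mem_of_sup {G : Type} [Group G] [Finite G] {L H : Subgroup G} (hL : L.Normal) {x : G}
    (hx : x ∈ L ⊔ H) : x ^ Nat.card H ∈ L := by
  rw [← QuotientGroup.eq_one_iff]
  have h1 : (x : G ⧸ L) ∈ (L ⊔ H).map (QuotientGroup.mk' L) := ⟨x, hx, rfl⟩
  rw [Subgroup.map_sup, QuotientGroup.map_mk'_self, bot_sup_eq] at h1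
  obtain ⟨y, hy, hyx⟩ := h1
  have h2 : (x : G ⧸ L) = (y : G ⧸ L) := hyx.symm
  have h3 : y ^ Nat.card H = 1 := by
    have h4 : (⟨y, hy⟩ : H) ^ Nat.card H = 1 := pow_card_eq_one'
    exact congrArg Subtype.val h4
  rw [QuotientGroup.mk_pow, h2, ← QuotientGroup.mk_pow, h3, QuotientGroup.mk_one]

theorem s9 (p : ℕ) [Fact p.Prime] (G : Type) [Group G] [Finite G] (P : Sylow p G)
    (L₁ L₂ : Subgroup G) (h1 : L₁.Normal) (h2 : L₂.Normal) (hc : L₁ ⊓ L₂ ≤ Subgroup.center G)
    (h3 : L₁ ⊔ Subgroup.normalizer ((P : Subgroup G) : Set G) = ⊤)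
    (h4 : L₂ ⊔ Subgroup.normalizer ((P : Subgroup G) : Set G) = ⊤) :
    Subgroup.normalizer ((P : Subgroup G) : Set G) = ⊤ := by
  have hn1 := sup_normal h1 h3
  have hn2 := sup_normal h2 h4
  set M : Subgroup G := (L₁ ⊔ P) ⊓ (L₂ ⊔ P) with hM
  have hMn : M.Normal := Subgroup.normal_inf_normal _ _
  have hPM : (P : Subgroup G) ≤ M := le_inf le_sup_right le_sup_right
  obtain ⟨k, hk⟩ := (IsPGroup.iff_card).mp P.isPGroup'
  have hpow : ∀ x ∈ M, x ^ (p ^ k) ∈ Subgroup.center G := by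
    intro x hx
    rw [← hk]
    exact hc ⟨pow_mem_of_sup h1 hx.1, pow_mem_of_sup h2 hx.2⟩
  have hq : IsPGroup p (M ⧸ Subgroup.center M) := by
    intro g
    obtain ⟨x, rfl⟩ := QuotientGroup.mk_surjective g
    refine ⟨k, ?_⟩
    rw [← QuotientGroup.mk_pow, QuotientGroup.eq_one_iff, Subgroup.mem_center_iff]
    intro y
    apply Subtype.ext
    have := Subgroup.mem_center_iff.mp (hpow x x.2) y
    exact this
  have : Group.IsNilpotent (M ⧸ Subgroup.center M) := hq.isNilpotent
  have : Group.IsNilpotent M := Group.of_quotient_center_nilpotent inferInstance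
  have hnorm : ((P.subtype hPM : Sylow p M) : Subgroup M).Normal := inferInstance
  have hchar := Sylow.characteristic_of_normal (P.subtype hPM) hnorm
  have hres : (((P.subtype hPM : Sylow p M) : Subgroup M).map M.subtype).Normal := inferInstance
  have hmap : ((P.subtype hPM : Sylow p M) : Subgroup M).map M.subtype = P := by
    rw [Sylow.coe_subtype]
    exact Subgroup.map_subgroupOf_eq_of_le hPM
  rw [hmap] at hres
  exact Subgroup.normalizer_eq_top_iff.mpr hres

theorem idx (p : ℕ) [Fact p.Prime] (G : Type) [Group G] [Finite G] (P : Sylow p G)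
    (T : Subgroup G) (hT : (P : Subgroup G) ≤ T) :
    (T.index : ZMod p) = (T.relIndex (Subgroup.normalizer ((P : Subgroup G) : Set G)) : ZMod p) := by
  set N := Subgroup.normalizer ((P : Subgroup G) : Set G) with hN
  have h1 : (N.index : ZMod p) = 1 := by
    have h0 : Nat.card (Sylow p G) = N.index := Sylow.card_eq_index_normalizer P
    have h2 := (ZMod.natCast_eq_natCast_iff _ _ _).mpr (card_sylow_modEq_one p G)
    rw [← h0, h2, Nat.cast_one]
  have h2 : (N.relIndex T : ZMod p) = 1 := by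
    have h3 : N.relIndex T =
        (Subgroup.normalizer (((P.subtype hT : Sylow p T) : Subgroup T) : Set T)).index := by
      rw [Subgroup.relIndex, hN, Subgroup.subgroupOf_normalizer_eq hT, Sylow.coe_subtype]
    have h0 : Nat.card (Sylow p T) =
        (Subgroup.normalizer (((P.subtype hT : Sylow p T) : Subgroup T) : Set T)).index :=
      Sylow.card_eq_index_normalizer (P.subtype hT)
    have h2 := (ZMod.natCast_eq_natCast_iff _ _ _).mpr (card_sylow_modEq_one p T)
    rw [h3, ← h0, h2, Nat.cast_one]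
  have h4 : N.relIndex T * T.index = (N ⊓ T).index := by
    rw [← Subgroup.inf_relIndex_right N T]
    exact Subgroup.relIndex_mul_index inf_le_right
  have h5 : T.relIndex N * N.index = (N ⊓ T).index := by
    rw [← Subgroup.inf_relIndex_right T N, inf_comm T N]
    exact Subgroup.relIndex_mul_index inf_le_left
  have h6 : ((N.relIndex T * T.index : ℕ) : ZMod p) = ((T.relIndex N * N.index : ℕ) : ZMod p) := by
    rw [h4, h5]
  push_cast at h6
  rw [h1, h2, one_mul, mul_one] at h6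
  exact h6

theorem s6 (p : ℕ) [Fact p.Prime] (G : Type) [Group G] [Finite G] (P : Sylow p G)
    (T X : Subgroup G) (hT : (P : Subgroup G) ≤ T)
    (hX : Subgroup.normalizer ((P : Subgroup G) : Set G) ≤ X) :
    (T.index : ZMod p) = (T.relIndex X : ZMod p) := by
  have hPX : (P : Subgroup G) ≤ X := Subgroup.le_normalizer.trans hX
  have h1 := idx p G P T hT
  have h2 := idx p X (P.subtype hPX) (T.subgroupOf X) (by
    rw [Sylow.coe_subtype]
    intro x hx
    exact hT hx)
  have h3 : Subgroup.normalizer (((P.subtype hPX : Sylow p X) : Subgroup X) : Set X) =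
      (Subgroup.normalizer ((P : Subgroup G) : Set G)).subgroupOf X := by
    rw [Sylow.coe_subtype, Subgroup.subgroupOf_normalizer_eq hPX]
  rw [h3, Subgroup.relIndex_subgroupOf hX] at h2
  rw [h1, ← h2]
  rfl

end Pool.Agent.K3h51.IN
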