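import Pool.Agent.K3h83.IN.Stm

/-!
# Project IN (helper83): brick S2
-/

set_option autoImplicit false

open scoped BigOperators Classical

namespace Pool.Agent.K3h51.IN

open Pool.Agent.K3h83.IN Pool.Agent.Helper884 Pool.Agent.K3h3.KB Pool.Agent.K3h3.MK
open Pool.Agent.H254R3.IN (IsIrr mem_Irr)
open IC (Irr)

theorem t_S2 (h : S2a) : S2 := by
  intro p _ L G _ _ _ _ j hj hn P
  have := Fintype.ofFinite G
  rw [wt_eq, Finset.mul_sum]
  have h1 : ∀ θ : L → ℂ,
      (Nat.card {x : G // x ∈ NN P ∧ fixes j θ x} : RR p) * wo (cl p) j θ =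
      ∑ χ ∈ Irr G, if ov j θ χ then
        (Nat.card {x : G // x ∈ NN P ∧ fixes j θ x} : RR p) * cl p (ndeg χ) else 0 := by
    intro θ
    rw [wo_eq, Finset.mul_sum, Finset.sum_filter]
  refine Eq.trans ?_ (Finset.sum_congr rfl fun θ _ => h1 θ).symm
  rw [Finset.sum_comm]
  refine Finset.sum_congr rfl fun χ hχ => ?_
  by_cases h0 : (ndeg χ : ZMod p) = 0
  · have h2 : cl p (ndeg χ) = 0 := by
      change cls p (ndeg χ) = 0
      unfold cls
      rw [dif_pos h0]
    rw [h2, mul_zero]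
    symm
    refine Finset.sum_eq_zero fun θ _ => ?_
    split_ifs <;> simp
  · have h3 := h p L G j hj hn P χ (mem_Irr.mp hχ) h0
    rw [← Finset.sum_filter, Finset.filter_filter, ← Finset.sum_mul, ← h3, Nat.cast_sum]

end Pool.Agent.K3h51.IN
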