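import Pool.Agent.K3h83.IN.Stm

/-!
# Project IN (helper83): brick S2a
-/

set_option autoImplicit false

open scoped BigOperators Classical

namespace Pool.Agent.K3h51.IN

open Pool.Agent.K3h83.IN Pool.Agent.Helper884 Pool.Agent.K3h3.KB Pool.Agent.K3h3.MK
open Pool.Agent.H254R3.IN (IsIrr mem_Irr)
open Pool.Agent.Y63.AWC (cj mult cj_mul cj_one cj_inv_iff cj_irr mult_cj mult_spec)
open Pool.Agent.R678.MC (inert mem_inert orbit_of_mult exists_under hat)
open IC (Irr)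

variable {p : ℕ} [Fact p.Prime] {G : Type} [Group G] [Fintype G] (N : Subgroup G) [N.Normal]

theorem exists_inv (P : Sylow p G) {χ : G → ℂ} (hχ : IsIrr χ) (h0 : (ndeg χ : ZMod p) ≠ 0) :
    ∃ θ : N → ℂ, IsIrr θ ∧ mult N χ θ ≠ 0 ∧ (P : Subgroup G) ≤ inert N θ := by
  obtain ⟨θ, hθ, hm⟩ := exists_under (N := N) hχ
  have h1 := hat hχ hθ hm
  obtain ⟨n, hn, hn1⟩ := Pool.Agent.Q90.WR.deg_pos hχ
  obtain ⟨d, hd, hd1⟩ := Pool.Agent.Q90.WR.deg_pos hθ
  have hnd : ndeg χ = n := by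
    unfold ndeg
    rw [hn1]
    simp
  have h2 : n = mult N χ θ * ((inert N θ).index * d) := by
    rw [hn1, hd1] at h1
    exact_mod_cast h1
  have h3 : ¬ p ∣ (inert N θ).index := by
    intro hdvd
    apply h0
    rw [hnd, h2, ZMod.natCast_eq_zero_iff]
    exact Dvd.dvd.mul_left (Dvd.dvd.mul_right hdvd _) _
  have h4 : ¬ p ∣ Nat.card (G ⧸ inert N θ) := h3
  obtain ⟨q, hq⟩ := P.isPGroup'.nonempty_fixed_point_of_prime_not_dvd_card (G ⧸ inert N θ) h4
  obtain ⟨g, rfl⟩ := QuotientGroup.mk_surjective q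
  refine ⟨cj N g⁻¹ θ, cj_irr N _ hθ, ?_, ?_⟩
  · rw [mult_cj N hχ hθ]
    exact hm
  · intro x hx
    have h5 := hq ⟨x, hx⟩
    have h6 : ((x * g : G) : G ⧸ inert N θ) = (g : G ⧸ inert N θ) := h5
    rw [eq_comm, QuotientGroup.eq, mem_inert] at h6
    rw [mem_inert]
    have h7 : cj N g⁻¹ (cj N (g⁻¹ * (x * g)) θ) = cj N g⁻¹ θ := by rw [h6]
    rw [← cj_mul] at h7
    rw [← cj_mul, ← h7]
    congr 1
    group

theorem conj_sylow (P : Sylow p G) (T : Subgroup G) (hT : (P : Subgroup G) ≤ T) (x : G)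
    (hx : ∀ y ∈ P, x * y * x⁻¹ ∈ T) : ∃ t ∈ T, t⁻¹ * x ∈ NN P := by
  have h1 : ((x • P : Sylow p G) : Subgroup G) ≤ T := by
    intro z hz
    rw [Sylow.coe_subgroup_smul, Subgroup.mem_pointwise_smul_iff_inv_smul_mem] at hz
    have h2 := hx _ hz
    have h3 : x * ((MulAut.conj x)⁻¹ • z) * x⁻¹ = z := by
      rw [← map_inv, MulAut.smul_def, MulAut.conj_apply]
      group
    rwa [h3] at h2
  obtain ⟨t, ht⟩ := MulAction.exists_smul_eq T (P.subtype hT) ((x • P).subtype h1)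
  refine ⟨t, t.2, ?_⟩
  have h3 : (t : G) • P = x • P := by
    have h5 : t • P.subtype hT = ((t : G) • P).subtype (Sylow.smul_le hT t) :=
      Sylow.smul_subtype hT t
    rw [h5] at ht
    exact Sylow.subtype_injective ht
  have h4 : ((t : G)⁻¹ * x) • P = P := by
    rw [mul_smul, ← h3, inv_smul_smul]
  exact Sylow.smul_eq_iff_mem_normalizer.mp h4

theorem core (P : Sylow p G) {χ : G → ℂ} (hχ : IsIrr χ) (h0 : (ndeg χ : ZMod p) ≠ 0) :
    ∑ θ ∈ (Irr N).filter (fun θ => (P : Subgroup G) ≤ inert N θ ∧ mult N χ θ ≠ 0),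
      Nat.card {x : G // x ∈ NN P ∧ x ∈ inert N θ} = Nat.card (NN P) := by
  obtain ⟨θ₁, hθ₁, hm₁, hP₁⟩ := exists_inv N P hχ h0
  rw [Nat.card_eq_fintype_card, ← Finset.card_univ,
    Finset.card_eq_sum_card_fiberwise (f := fun n : NN P => cj N (n : G) θ₁)
      (t := (Irr N).filter (fun θ => (P : Subgroup G) ≤ inert N θ ∧ mult N χ θ ≠ 0))]
  · refine Finset.sum_congr rfl fun θ hθ => ?_
    rw [Finset.mem_filter] at hθ
    obtain ⟨hθ', hPθ, hmθ⟩ := hθ
    obtain ⟨x, hx⟩ := orbit_of_mult hχ (mem_Irr.mp hθ') hθ₁ hmθ hm₁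
    obtain ⟨t, ht, htx⟩ := conj_sylow P (inert N θ₁) hP₁ x (by
      intro y hy
      have h1 := mem_inert.mp (hPθ hy)
      rw [← hx, ← cj_mul] at h1
      rw [mem_inert, cj_mul, h1, ← cj_mul, mul_inv_cancel, cj_one])
    have hn : cj N (t⁻¹ * x) θ₁ = θ := by
      rw [cj_mul, ← (cj_inv_iff N t θ₁ θ₁).mp ht, hx]
    rw [← Fintype.card_subtype, ← Nat.card_eq_fintype_card]
    refine Nat.card_congr ⟨fun y => ⟨⟨(t⁻¹ * x) * y.1, (NN P).mul_mem htx y.2.1⟩, ?_⟩,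
      fun y => ⟨(t⁻¹ * x)⁻¹ * y.1, (NN P).mul_mem ((NN P).inv_mem htx) y.1.2, ?_⟩, ?_, ?_⟩
    · show cj N ((t⁻¹ * x) * y.1) θ₁ = θ
      rw [cj_mul, hn]
      exact y.2.2
    · rw [mem_inert]
      have h2 : cj N (y.1 : G) θ₁ = θ := y.2
      have h3 : cj N ((t⁻¹ * x)⁻¹ * (y.1 : G)) (cj N (t⁻¹ * x) θ₁) = cj N (y.1 : G) θ₁ := by
        rw [← cj_mul, mul_inv_cancel_left]
      rw [hn, h2] at h3
      exact h3
    · intro y
      ext
      show (t⁻¹ * x)⁻¹ * ((t⁻¹ * x) * y.1) = y.1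
      rw [inv_mul_cancel_left]
    · intro y
      ext
      show (t⁻¹ * x) * ((t⁻¹ * x)⁻¹ * (y.1 : G)) = y.1
      rw [mul_inv_cancel_left]
  · intro n _
    simp only [Finset.coe_filter, Set.mem_ofPred_eq]
    refine ⟨mem_Irr.mpr (cj_irr N _ hθ₁), ?_, ?_⟩
    · intro x hx
      rw [mem_inert, ← cj_mul]
      have h1 : (n : G) * x * (n : G)⁻¹ ∈ P := ((Subgroup.mem_normalizer_iff.mp n.2) x).mp hx
      have h2 := mem_inert.mp (hP₁ h1)
      have h3 : (n : G) * x = ((n : G) * x * (n : G)⁻¹) * n := by group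
      rw [h3, cj_mul, h2]
    · rw [mult_cj N hχ hθ₁]
      exact hm₁

omit [Fact p.Prime] [Fintype G] in
theorem fixes_iff {L : Type} [Group L] (j : L →* G) (e : L ≃* N) (he : ∀ l, ((e l : N) : G) = j l)
    (θ : L → ℂ) (x : G) : fixes j θ x ↔ cj N x (fun n => θ (e.symm n)) = fun n => θ (e.symm n) := by
  constructor
  · intro h
    funext n
    have h1 := h (e.symm n) (e.symm (MulAut.conjNormal x n)) (by
      rw [← he, ← he, e.apply_symm_apply, e.apply_symm_apply, MulAut.conjNormal_apply])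
    exact h1
  · intro h l l' hl
    have h1 := congrFun h (e l)
    have h2 : MulAut.conjNormal x (e l) = e l' := by
      apply Subtype.ext
      rw [MulAut.conjNormal_apply, he, he, hl]
    simp only [cj] at h1
    rw [h2, e.symm_apply_apply, e.symm_apply_apply] at h1
    exact h1

theorem t_S2a : S2a := by
  intro p _ L G _ _ _ _ j hj hn P χ hχ h0
  obtain ⟨N, _, e, he⟩ : ∃ (N : Subgroup G) (_ : N.Normal) (e : L ≃* N), ∀ l, ((e l : N) : G) = j l :=
    ⟨j.range, hn, MonoidHom.ofInjective hj, fun _ => rfl⟩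
  have := Fintype.ofFinite G
  have h1 := core N P hχ h0
  refine Eq.trans ?_ h1
  have hfix : ∀ (θ : L → ℂ) (x : G), fixes j θ x ↔ x ∈ inert N (fun n => θ (e.symm n)) :=
    fun θ x => fixes_iff N j e he θ x
  have hov : ∀ θ : L → ℂ, IsIrr θ → (ov j θ χ ↔ mult N χ (fun n => θ (e.symm n)) ≠ 0) := by
    intro θ hθ
    have h2 := ov_congr e (MulEquiv.refl G) j N.subtype (fun l => (he l).symm) θ
      (fun n => θ (e.symm n)) (fun l => by rw [e.symm_apply_apply]) χ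
    have h3 : ov j θ χ ↔ ov N.subtype (fun n => θ (e.symm n)) χ := h2
    have h4 : IsIrr (fun n => θ (e.symm n)) := Pool.Agent.Q90.WR.irr_comp e.symm hθ
    have h5 := mult_spec N hχ h4
    have h6 := ov_iff N.subtype (fun n => θ (e.symm n)) χ
    rw [h3, h6]
    refine not_congr ?_
    rw [← Nat.cast_eq_zero (R := ℂ), ← h5]
    rfl
  refine Finset.sum_bij' (fun θ _ => fun n => θ (e.symm n)) (fun θ _ => fun l => θ (e l))
    ?_ ?_ ?_ ?_ ?_
  · intro θ hθ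
    obtain ⟨hθ0, hθ2, hθ3⟩ := (@Finset.mem_filter _ _ (_) _ _).mp hθ
    have hθ1 := mem_Irr.mp hθ0
    exact (@Finset.mem_filter _ _ (_) _ _).mpr
      ⟨mem_Irr.mpr (Pool.Agent.Q90.WR.irr_comp e.symm hθ1),
      fun x hx => (hfix θ x).mp (hθ2 x hx), (hov θ hθ1).mp hθ3⟩
  · intro θ hθ
    obtain ⟨hθ0, hθ2, hθ3⟩ := (@Finset.mem_filter _ _ (_) _ _).mp hθ
    have hθ1 : IsIrr fun l => θ (e l) := Pool.Agent.Q90.WR.irr_comp e (mem_Irr.mp hθ0)
    have h7 : (fun n => θ (e (e.symm n))) = θ := by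
      funext n
      rw [e.apply_symm_apply]
    refine (@Finset.mem_filter _ _ (_) _ _).mpr ⟨mem_Irr.mpr hθ1, fun x hx => ?_, ?_⟩
    · rw [hfix, h7]
      exact hθ2 hx
    · rw [hov _ hθ1, h7]
      exact hθ3
  · intro θ _
    funext l
    simp
  · intro θ _
    funext n
    simp
  · intro θ _
    refine Nat.card_congr (Equiv.subtypeEquivRight fun x => ?_)
    rw [hfix]

end Pool.Agent.K3h51.IN
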