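import Pool.Agent.K3h83.IN.Stm

/-!
# Project IN (helper83): brick S4d
-/

set_option autoImplicit false

open scoped BigOperators Classical

namespace Pool.Agent.K3h51.IN

open Pool.Agent.K3h83.IN

theorem s4d (A : Type) [CommGroup A] [Finite A] (nu mu : A →* ℂˣ) (h : nu.ker ≤ mu.ker) :
    mu ∈ Subgroup.zpowers nu := by
  have hfin : Finite nu.range := Set.finite_range nu |>.to_subtype
  obtain ⟨⟨g, a, ha⟩, hg⟩ := IsCyclic.exists_generator (α := nu.range)
  have hn : 0 < orderOf g := by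
    have h1 : orderOf (⟨g, a, ha⟩ : nu.range) = orderOf g :=
      (Subgroup.orderOf_coe (⟨g, a, ha⟩ : nu.range)).symm
    rw [← h1]
    exact orderOf_pos _
  have hprim : IsPrimitiveRoot (g : ℂ) (orderOf g) :=
    IsPrimitiveRoot.coe_units_iff.mpr (IsPrimitiveRoot.orderOf g)
  have hmu : (mu a) ^ orderOf g = 1 := by
    have h2 : a ^ orderOf g ∈ nu.ker := by
      rw [MonoidHom.mem_ker, map_pow, ha, pow_orderOf_eq_one]
    have h3 := h h2
    rw [MonoidHom.mem_ker, map_pow] at h3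
    exact h3
  have hmu' : ((mu a : ℂˣ) : ℂ) ^ orderOf g = 1 := by
    rw [← Units.val_pow_eq_pow_val, hmu, Units.val_one]
  have : NeZero (orderOf g) := ⟨hn.ne'⟩
  obtain ⟨i, -, hi⟩ := hprim.eq_pow_of_pow_eq_one hmu'
  have hi' : g ^ i = mu a := Units.ext (by rw [Units.val_pow_eq_pow_val, hi])
  refine Subgroup.mem_zpowers_iff.mpr ⟨i, ?_⟩
  rw [zpow_natCast]
  ext b
  have hb : (⟨nu b, b, rfl⟩ : nu.range) ∈ Subgroup.zpowers (⟨g, a, ha⟩ : nu.range) := hg _
  obtain ⟨k, hk⟩ := Subgroup.mem_zpowers_iff.mp hb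
  have hk' : g ^ k = nu b := congrArg Subtype.val hk
  have h4 : b * (a ^ k)⁻¹ ∈ nu.ker := by
    rw [MonoidHom.mem_ker, map_mul, map_inv, map_zpow, ha, hk', mul_inv_cancel]
  have h5 := h h4
  rw [MonoidHom.mem_ker, map_mul, map_inv, map_zpow, mul_inv_eq_one] at h5
  rw [MonoidHom.pow_apply, h5, ← hi', ← hk', ← zpow_natCast, ← zpow_natCast, ← zpow_mul,
    ← zpow_mul, mul_comm]

theorem t_S4d : S4d := fun A _ _ nu mu h => s4d A nu mu h

end Pool.Agent.K3h51.IN
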