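import Pool.Agent.K3h51.IN.Grp
import Pool.Agent.K3h83.IN.Stm

/-!
# Project IN (helper83): bricks S6, S9, S12
-/

set_option autoImplicit false

namespace Pool.Agent.K3h51.IN

open Pool.Agent.K3h83.IN Pool.Agent.K3h3.MK

theorem t_S6 : S6 := fun p _ G _ _ P T X hT hX => s6 p G P T X hT hX

theorem t_S9 : S9 := fun p _ G _ _ P L₁ L₂ h1 h2 hc h3 h4 => s9 p G P L₁ L₂ h1 h2 hc h3 h4

theorem t_S12 : S12 := fun p _ G _ _ A hA hc hn => s12 p G A hA hc hn

end Pool.Agent.K3h51.IN
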